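import Pool.Agent.helper75.LC.Spec

/-! Row lc:PCQ (MP_8aef6e_al). -/

set_option autoImplicit false

namespace Pool.Agent.LC

open MX MG

/-- a `p`-element over a `p`-element -/
theorem PCQ_lift {G G' : Type} [Group G] [Group G'] [Finite G] (p : ℕ) [hp : Fact p.Prime] (q : G →* G')
    (hq : Function.Surjective q) (y : G') (k : ℕ) (hy : y ^ (p ^ k) = 1) :
    ∃ x : G, q x = y ∧ ∃ j : ℕ, x ^ (p ^ j) = 1 := by
  obtain ⟨h, rfl⟩ := hq y
  obtain ⟨j, m, hm, hN⟩ := Nat.exists_eq_pow_mul_and_not_dvd (orderOf_pos h).ne' p hp.out.ne_one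
  have hcop : Nat.Coprime m (orderOf (q h)) := by
    have h1 : Nat.Coprime m (p ^ k) :=
      Nat.Coprime.pow_right k ((Nat.Prime.coprime_iff_not_dvd hp.out).2 hm).symm
    exact Nat.Coprime.coprime_dvd_right (orderOf_dvd_of_pow_eq_one hy) h1
  obtain ⟨m', hm'⟩ := exists_pow_eq_self_of_coprime hcop
  refine ⟨(h ^ m) ^ m', ?_, j, ?_⟩
  · rw [map_pow, map_pow, hm']
  · rw [← pow_mul, ← pow_mul]
    have h2 : m * (m' * p ^ j) = (p ^ j * m) * m' := by ring
    rw [h2, ← hN, pow_mul, pow_orderOf_eq_one, one_pow]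

theorem PCQ_cj {G : Type} [Group G] (Q : Subgroup G) (a b : G) : cj a (cj b Q) = cj (a * b) Q := by
  ext x
  rw [mem_cj, mem_cj, mem_cj]
  have h : b⁻¹ * (a⁻¹ * x * a) * b = (a * b)⁻¹ * x * (a * b) := by group
  rw [h]

theorem PCQ_one {G : Type} [Group G] (Q : Subgroup G) : cj 1 Q = Q := by
  ext x
  rw [mem_cj, inv_one, one_mul, mul_one]

theorem PCQ_range {G : Type} [Group G] (P Q : Subgroup G) (g : G) (h : P = cj g Q) :
    Set.range (fun a : G => cj a P) = Set.range (fun a : G => cj a Q) := by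
  ext T
  constructor
  · rintro ⟨a, rfl⟩
    exact ⟨a * g, by simp only [h, PCQ_cj]⟩
  · rintro ⟨a, rfl⟩
    refine ⟨a * g⁻¹, ?_⟩
    simp only [h, PCQ_cj]
    rw [inv_mul_cancel_right]

theorem PCQ_map {G G' : Type} [Group G] [Group G'] (q : G →* G') (Q : Subgroup G) (g : G) :
    (cj g Q).map q = cj (q g) (Q.map q) := by
  unfold cj
  rw [Subgroup.map_map, Subgroup.map_map]
  congr 1
  ext x
  simp [MulAut.conj_apply]

theorem PCQ : PCQ_stmt := by
  classical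
  intro G G' _ _ _ p hp q hq
  have : Finite G' := Finite.of_surjective q hq
  have hch : ∀ S : Set (Subgroup G'), ∃ z : G' × G, S ∈ pcl p G' → z.1 ≠ 1 ∧ q z.2 = z.1 ∧
      (∃ j : ℕ, z.2 ^ (p ^ j) = 1) ∧ S = Set.range (fun g : G' => cj g (Subgroup.zpowers z.1)) := by
    intro S
    by_cases hS : S ∈ pcl p G'
    · obtain ⟨y, hy1, ⟨k, hk⟩, hSy⟩ := hS
      obtain ⟨x, hx, j, hj⟩ := PCQ_lift p q hq y k hk
      exact ⟨(y, x), fun _ => ⟨hy1, hx, ⟨j, hj⟩, hSy⟩⟩
    · exact ⟨(1, 1), fun h => absurd h hS⟩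
  choose z hz using hch
  refine Set.ncard_le_ncard_of_injOn (fun S => Set.range (fun g : G => cj g (Subgroup.zpowers (z S).2))) ?_ ?_
    (Set.toFinite _)
  · intro S hS
    obtain ⟨h1, h2, h3, -⟩ := hz S hS
    refine ⟨(z S).2, ?_, h3, rfl⟩
    intro h
    apply h1
    rw [← h2, h, map_one]
  · intro S hS T hT hST
    obtain ⟨-, hS2, -, hS4⟩ := hz S hS
    obtain ⟨-, hT2, -, hT4⟩ := hz T hT
    have h1 : Subgroup.zpowers (z S).2 ∈ Set.range (fun g : G => cj g (Subgroup.zpowers (z T).2)) := by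
      have h2 : Set.range (fun g : G => cj g (Subgroup.zpowers (z S).2)) =
        Set.range (fun g : G => cj g (Subgroup.zpowers (z T).2)) := hST
      rw [← h2]
      exact ⟨1, PCQ_one _⟩
    obtain ⟨g, hg⟩ := h1
    rw [hS4, hT4]
    apply PCQ_range _ _ (q g)
    rw [← hS2, ← hT2, ← MonoidHom.map_zpowers, ← MonoidHom.map_zpowers, ← PCQ_map]
    exact congrArg (Subgroup.map q) hg.symm

end Pool.Agent.LC
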